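import Pool.Agent.Run7.h450.CS.Iface

/-! # Project CL (MP_9fb148_an, S05597): piece ODD (`d` odd, uses CORE) -/

set_option autoImplicit false
open Matrix
open scoped Kronecker ComplexOrder

namespace Run7.h437.CL
open Run7.h450.CL

section
variable {n d m : ℕ}

/-- the `d + 1` Clifford matrices on the doubled space -/
noncomputable def ga (n : ℕ) (γ : Fin d → Matrix (Fin m) (Fin m) ℂ) :
    Fin (d + 1) → Matrix ((Fin n × Fin m) ⊕ (Fin n × Fin m)) ((Fin n × Fin m) ⊕ (Fin n × Fin m)) ℂ :=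
  fun j => Fin.lastCases (motive := fun _ =>
      Matrix ((Fin n × Fin m) ⊕ (Fin n × Fin m)) ((Fin n × Fin m) ⊕ (Fin n × Fin m)) ℂ)
    (Matrix.fromBlocks 0 ((-Complex.I) • 1) (Complex.I • 1) 0)
    (fun j => Matrix.fromBlocks 0 ((1 : Matrix (Fin n) (Fin n) ℂ) ⊗ₖ (γ j))
      ((1 : Matrix (Fin n) (Fin n) ℂ) ⊗ₖ (γ j)) 0) j

/-- the matrices `B j` on the doubled space -/
noncomputable def ba (m : ℕ) (A : Fin d → Matrix (Fin n) (Fin n) ℂ) :
    Fin (d + 1) → Matrix ((Fin n × Fin m) ⊕ (Fin n × Fin m)) ((Fin n × Fin m) ⊕ (Fin n × Fin m)) ℂ :=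
  fun j => Fin.lastCases (motive := fun _ =>
      Matrix ((Fin n × Fin m) ⊕ (Fin n × Fin m)) ((Fin n × Fin m) ⊕ (Fin n × Fin m)) ℂ)
    0
    (fun j => Matrix.fromBlocks ((A j) ⊗ₖ (1 : Matrix (Fin m) (Fin m) ℂ)) 0 0
      ((A j) ⊗ₖ (1 : Matrix (Fin m) (Fin m) ℂ))) j

theorem ga_last (γ : Fin d → Matrix (Fin m) (Fin m) ℂ) :
    ga n γ (Fin.last d) = Matrix.fromBlocks 0 ((-Complex.I) • 1) (Complex.I • 1) 0 := by
  simp [ga]

theorem ga_cast (γ : Fin d → Matrix (Fin m) (Fin m) ℂ) (j : Fin d) :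
    ga n γ j.castSucc = Matrix.fromBlocks 0 ((1 : Matrix (Fin n) (Fin n) ℂ) ⊗ₖ (γ j))
      ((1 : Matrix (Fin n) (Fin n) ℂ) ⊗ₖ (γ j)) 0 := by
  simp [ga]

theorem ba_last (A : Fin d → Matrix (Fin n) (Fin n) ℂ) :
    ba m A (Fin.last d) = 0 := by
  simp [ba]

theorem ba_cast (A : Fin d → Matrix (Fin n) (Fin n) ℂ) (j : Fin d) :
    ba m A j.castSucc = Matrix.fromBlocks ((A j) ⊗ₖ (1 : Matrix (Fin m) (Fin m) ℂ)) 0 0
      ((A j) ⊗ₖ (1 : Matrix (Fin m) (Fin m) ℂ)) := by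
  simp [ba]

theorem kk (P Q : Matrix (Fin m) (Fin m) ℂ) :
    ((1 : Matrix (Fin n) (Fin n) ℂ) ⊗ₖ P) * ((1 : Matrix (Fin n) (Fin n) ℂ) ⊗ₖ Q)
      = (1 : Matrix (Fin n) (Fin n) ℂ) ⊗ₖ (P * Q) := by
  rw [← Matrix.mul_kronecker_mul, one_mul]

theorem kneg (P : Matrix (Fin m) (Fin m) ℂ) :
    (1 : Matrix (Fin n) (Fin n) ℂ) ⊗ₖ (-P) = -((1 : Matrix (Fin n) (Fin n) ℂ) ⊗ₖ P) := by
  have h := Matrix.kronecker_smul (-1 : ℂ) (1 : Matrix (Fin n) (Fin n) ℂ) P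
  simpa using h

theorem ak (A : Matrix (Fin n) (Fin n) ℂ) (P : Matrix (Fin m) (Fin m) ℂ) :
    (A ⊗ₖ (1 : Matrix (Fin m) (Fin m) ℂ)) * ((1 : Matrix (Fin n) (Fin n) ℂ) ⊗ₖ P) = A ⊗ₖ P := by
  rw [← Matrix.mul_kronecker_mul, one_mul, mul_one]

theorem ka (A : Matrix (Fin n) (Fin n) ℂ) (P : Matrix (Fin m) (Fin m) ℂ) :
    ((1 : Matrix (Fin n) (Fin n) ℂ) ⊗ₖ P) * (A ⊗ₖ (1 : Matrix (Fin m) (Fin m) ℂ)) = A ⊗ₖ P := by
  rw [← Matrix.mul_kronecker_mul, one_mul, mul_one]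

theorem cl_ga (γ : Fin d → Matrix (Fin m) (Fin m) ℂ) (h1 : ∀ j, γ j * γ j = 1)
    (h2 : ∀ j k, j ≠ k → γ j * γ k = -(γ k * γ j)) : Cl (ga n γ) := by
  constructor
  · intro j
    refine Fin.lastCases ?_ (fun j => ?_) j
    · rw [ga_last, Matrix.fromBlocks_multiply, ← Matrix.fromBlocks_one]
      simp [smul_smul]
    · rw [ga_cast, Matrix.fromBlocks_multiply, ← Matrix.fromBlocks_one]
      simp [kk, h1]
  · intro j k
    refine Fin.lastCases ?_ (fun j => ?_) j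
    · refine Fin.lastCases ?_ (fun k => ?_) k
      · intro h; exact absurd rfl h
      · intro _
        rw [ga_last, ga_cast, Matrix.fromBlocks_multiply, Matrix.fromBlocks_multiply,
          Matrix.fromBlocks_neg]
        simp
    · refine Fin.lastCases ?_ (fun k => ?_) k
      · intro _
        rw [ga_last, ga_cast, Matrix.fromBlocks_multiply, Matrix.fromBlocks_multiply,
          Matrix.fromBlocks_neg]
        simp
      · intro h
        have h' : j ≠ k := fun e => h (by rw [e])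
        rw [ga_cast, ga_cast, Matrix.fromBlocks_multiply, Matrix.fromBlocks_multiply,
          Matrix.fromBlocks_neg]
        simp [kk, h2 j k h', kneg]

theorem comm (A : Fin d → Matrix (Fin n) (Fin n) ℂ) (γ : Fin d → Matrix (Fin m) (Fin m) ℂ)
    (j k : Fin (d + 1)) : ba m A j * ga n γ k = ga n γ k * ba m A j := by
  refine Fin.lastCases ?_ (fun j => ?_) j
  · rw [ba_last]; simp
  · refine Fin.lastCases ?_ (fun k => ?_) k
    · rw [ba_cast, ga_last, Matrix.fromBlocks_multiply, Matrix.fromBlocks_multiply]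
      simp
    · rw [ba_cast, ga_cast, Matrix.fromBlocks_multiply, Matrix.fromBlocks_multiply]
      simp [ak, ka]

theorem kherm {P : Matrix (Fin n) (Fin n) ℂ} {Q : Matrix (Fin m) (Fin m) ℂ}
    (hP : P.IsHermitian) (hQ : Q.IsHermitian) : (P ⊗ₖ Q).IsHermitian := by
  ext ⟨a, b⟩ ⟨c, e⟩
  simp only [Matrix.conjTranspose_apply, Matrix.kroneckerMap_apply, star_mul']
  rw [hP.apply, hQ.apply]

theorem sum_fb {α ι : Type} [Fintype α] [Fintype ι] (F : ι → Matrix α α ℂ) :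
    ∑ j, Matrix.fromBlocks 0 (F j) (F j) 0 = Matrix.fromBlocks 0 (∑ j, F j) (∑ j, F j) 0 := by
  ext (a | a) (b | b) <;> simp [Matrix.sum_apply]

theorem t_ODD (hC : S_CORE) : S_ODD := by
  intro n d m hn hm hd A γ hA hγ h1 h2
  have : Nonempty ((Fin n × Fin m) ⊕ (Fin n × Fin m)) := ⟨Sum.inl (⟨0, hn⟩, ⟨0, hm⟩)⟩
  obtain ⟨x, hx⟩ := hC ((Fin n × Fin m) ⊕ (Fin n × Fin m)) d (ga n γ) (ba m A) hd
    (cl_ga γ h1 h2) (comm A γ)
  set y : Fin d → ℝ := fun j => x j.castSucc with hy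
  set μ : ℝ := x (Fin.last d) with hμ
  set L : Matrix (Fin n × Fin m) (Fin n × Fin m) ℂ :=
    ∑ j : Fin d, (A j - ((y j : ℂ)) • (1 : Matrix (Fin n) (Fin n) ℂ)) ⊗ₖ (γ j) with hL
  have hLh : L.IsHermitian := by
    rw [hL]
    unfold Matrix.IsHermitian
    rw [Matrix.conjTranspose_sum]
    refine Finset.sum_congr rfl fun j _ => ?_
    have h3 : (((y j : ℂ)) • (1 : Matrix (Fin n) (Fin n) ℂ)).IsHermitian := by
      unfold Matrix.IsHermitian
      rw [Matrix.conjTranspose_smul]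
      simp
    exact (kherm ((hA j).sub h3) (hγ j)).eq
  have hM : ∑ j, ba m A j * ga n γ j - sl (ga n γ) x
      = Matrix.fromBlocks 0 (L + ((μ : ℂ) * Complex.I) • 1) (L - ((μ : ℂ) * Complex.I) • 1) 0 := by
    unfold sl
    rw [Fin.sum_univ_castSucc, Fin.sum_univ_castSucc]
    simp only [ba_last, ga_last, ba_cast, ga_cast, zero_mul, add_zero,
      Matrix.fromBlocks_multiply, Matrix.fromBlocks_smul]
    simp only [Matrix.mul_zero, add_zero, zero_add, ak, smul_zero]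
    rw [sum_fb, sum_fb]
    have hL2 : L = ∑ j : Fin d, (A j) ⊗ₖ (γ j)
        - ∑ j : Fin d, ((x j.castSucc : ℝ) : ℂ) • ((1 : Matrix (Fin n) (Fin n) ℂ) ⊗ₖ (γ j)) := by
      rw [hL, ← Finset.sum_sub_distrib]
      refine Finset.sum_congr rfl fun j _ => ?_
      ext ⟨a, b⟩ ⟨c, e⟩
      simp [Matrix.kroneckerMap_apply, hy]
      ring
    rw [hL2]
    ext (a | a) (b | b) <;> simp [hμ] <;> ring
  rw [hM] at hx
  have hS : (Matrix.fromBlocks 0 (L + ((μ : ℂ) * Complex.I) • 1)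
      (L - ((μ : ℂ) * Complex.I) • 1) 0) * (Matrix.fromBlocks 0 1 1 0 :
        Matrix ((Fin n × Fin m) ⊕ (Fin n × Fin m)) ((Fin n × Fin m) ⊕ (Fin n × Fin m)) ℂ)
      = Matrix.fromBlocks (L + ((μ : ℂ) * Complex.I) • 1) 0 0
        (L - ((μ : ℂ) * Complex.I) • 1) := by
    rw [Matrix.fromBlocks_multiply]
    simp
  have hdet : (L + ((μ : ℂ) * Complex.I) • 1).det * (L - ((μ : ℂ) * Complex.I) • 1).det = 0 := by
    rw [← Matrix.det_fromBlocks_zero₂₁, ← hS, Matrix.det_mul, hx, zero_mul]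
  rw [← Matrix.det_mul] at hdet
  have hprod : (L + ((μ : ℂ) * Complex.I) • 1) * (L - ((μ : ℂ) * Complex.I) • 1)
      = Lᴴ * L + ((μ : ℂ) ^ 2) • 1 := by
    rw [hLh.eq, add_mul, mul_sub, mul_sub]
    simp only [Matrix.smul_mul, Matrix.mul_smul, mul_one, one_mul, smul_smul]
    have h4 : (μ : ℂ) * Complex.I * ((μ : ℂ) * Complex.I) = -((μ : ℂ) ^ 2) := by
      have := Complex.I_mul_I
      linear_combination ((μ : ℂ) ^ 2) * this
    rw [h4, neg_smul]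
    abel
  have hμ0 : μ = 0 := by
    by_contra hne
    have hp1 : (Lᴴ * L).PosSemidef := Matrix.posSemidef_conjTranspose_mul_self L
    have hp2 : (((μ : ℂ) ^ 2) • (1 : Matrix (Fin n × Fin m) (Fin n × Fin m) ℂ)).PosDef := by
      refine Matrix.PosDef.one.smul ?_
      have h5 : (0 : ℝ) < μ ^ 2 := by positivity
      have h6 : ((μ ^ 2 : ℝ) : ℂ) = (μ : ℂ) ^ 2 := by push_cast; rfl
      rw [← h6]
      exact_mod_cast h5
    have hp3 : (Lᴴ * L + ((μ : ℂ) ^ 2) • (1 : Matrix (Fin n × Fin m) (Fin n × Fin m) ℂ)).PosDef :=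
      Matrix.PosDef.posSemidef_add hp1 hp2
    rw [hprod] at hdet
    exact absurd hdet hp3.det_pos.ne'
  refine ⟨y, ?_⟩
  rw [hμ0] at hdet
  simp only [Complex.ofReal_zero, zero_mul, zero_smul, add_zero, sub_zero, Matrix.det_mul,
    mul_self_eq_zero] at hdet
  simpa [Matrix.kronecker, hL] using hdet

end

end Run7.h437.CL
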